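import Mathlib
import Pool.Agent.Q94.CPTree

/-! # The unit group of the universal CP monoid is generated by the images of the symmetric
groups -/

namespace Pool.Agent.Results.MP_6189ff_al.UnitsGenerated

open Pool.Agent.Q94.CP

/-- The units of the form `Φ(τ_{σ⁻¹(1)}, …, τ_{σ⁻¹(d)})` for `(Φ; τ) ∈ 𝕊(M)`, `d ≥ 2` and
`σ ∈ S_d`. -/
def symmetricImages {M : Type*} [Monoid M] (sig : M → M → M) (p q : M) : Set Mˣ :=
  {u | ∃ (d : ℕ) (Φ : (Fin d → M) → M) (τ : Fin d → M) (σ : Equiv.Perm (Fin d)),
    2 ≤ d ∧ InS sig p q d Φ τ ∧ (u : M) = Φ (fun i => τ (σ⁻¹ i))}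

section
variable {M : Type*} [Monoid M] {sig : M → M → M} {p q : M}

theorem psiU_mem (h : IsCP sig p q) (t : T) (ht : Nontrivial t.Idx) (σ : Equiv.Perm t.Idx) :
    T.psiU h t σ ∈ symmetricImages sig p q := by
  obtain ⟨n, e, he⟩ := T.exists_inS sig p q t
  refine ⟨n, _, _, (e.symm.trans (σ⁻¹.trans e)), ?_, he, ?_⟩
  · have h1 : Fintype.card t.Idx = n := by rw [Fintype.card_congr e, Fintype.card_fin]
    have h2 := Fintype.one_lt_card (α := t.Idx)
    omega
  · change T.psi sig p q t σ = _
    unfold T.psi
    congr 1
    funext i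
    change T.tau p q t (σ i) = T.tau p q t (e.symm (e (σ (e.symm (e i)))))
    rw [Equiv.symm_apply_apply, Equiv.symm_apply_apply]

end

/-- prepend a finite word to a sequence -/
def pre : List Bool → (ℕ → Bool) → (ℕ → Bool)
  | [], s => s
  | b :: l, s => cons b (pre l s)

theorem pre_append (l l' : List Bool) (s : ℕ → Bool) : pre (l ++ l') s = pre l (pre l' s) := by
  induction l with
  | nil => rfl
  | cons b l ih => simp only [List.cons_append, pre, ih]

theorem cons_inj {b b' : Bool} {s s' : ℕ → Bool} (h : cons b s = cons b' s') :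
    b = b' ∧ s = s' := by
  refine ⟨congrFun h 0, ?_⟩
  have := congrArg tl h
  simpa using this

theorem pre_inj (l : List Bool) {s s' : ℕ → Bool} (h : pre l s = pre l s') : s = s' := by
  induction l with
  | nil => exact h
  | cons b l ih => exact ih (cons_inj h).2

theorem pre_compare (a : List Bool) : ∀ (a' : List Bool) (s s' : ℕ → Bool),
    a.length ≤ a'.length → pre a s = pre a' s' → ∃ c, a' = a ++ c := by
  induction a with
  | nil => intro a' _ _ _ _; exact ⟨a', rfl⟩
  | cons b a ih =>
    intro a' s s' hl h
    cases a' with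
    | nil => simp at hl
    | cons b' a' =>
      obtain ⟨h1, h2⟩ := cons_inj h
      obtain ⟨c, hc⟩ := ih a' s s' (by simpa using hl) h2
      exact ⟨c, by rw [h1, hc]; rfl⟩

section
variable {V : Type} [Monoid V] {sig : V → V → V} {p q : V} (f : V →* EndC)

/-- the right action on sequences -/
def act (x : V) : (ℕ → Bool) → (ℕ → Bool) := (f x).unop

theorem act_mul (x y : V) (s : ℕ → Bool) : act f (x * y) s = act f y (act f x s) := by
  unfold act
  rw [map_mul]
  rfl

theorem act_one (s : ℕ → Bool) : act f 1 s = s := by
  unfold act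
  rw [map_one]
  rfl

variable {f}

theorem act_letter (hf : IsHom sig p q sigC pC qC f) (b : Bool) (s : ℕ → Bool) :
    act f (if b then q else p) s = cons b s := by
  unfold act
  cases b with
  | false => simp only [Bool.false_eq_true, if_false]; rw [hf.1]; rfl
  | true => simp only [if_true]; rw [hf.2.1]; rfl

theorem act_W (hf : IsHom sig p q sigC pC qC f) (l : List Bool) (s : ℕ → Bool) :
    act f (T.W p q l) s = pre l s := by
  induction l with
  | nil => exact act_one f s
  | cons b l ih =>
    simp only [T.W, pre]
    rw [act_mul, ih, act_letter hf]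

theorem act_tau_surj (hf : IsHom sig p q sigC pC qC f) (t : T) : ∀ s : ℕ → Bool,
    ∃ (i : t.Idx) (s' : ℕ → Bool), s = act f (T.tau p q t i) s' := by
  induction t with
  | leaf => exact fun s => ⟨(), s, (act_one f s).symm⟩
  | node l r ihl ihr =>
    intro s
    cases h : s 0 with
    | false =>
      obtain ⟨i, s', hs'⟩ := ihl (tl s)
      refine ⟨Sum.inl i, s', ?_⟩
      simp only [T.tau]
      rw [act_mul, ← hs']
      have := act_letter hf false (tl s)
      simp only [Bool.false_eq_true, if_false] at this
      rw [this, ← h, cons_tl]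
    | true =>
      obtain ⟨i, s', hs'⟩ := ihr (tl s)
      refine ⟨Sum.inr i, s', ?_⟩
      simp only [T.tau]
      rw [act_mul, ← hs']
      have := act_letter hf true (tl s)
      simp only [if_true] at this
      rw [this, ← h, cons_tl]

theorem act_tau_inj (hf : IsHom sig p q sigC pC qC f) (t : T) : ∀ (i j : t.Idx)
    (s s' : ℕ → Bool), act f (T.tau p q t i) s = act f (T.tau p q t j) s' → i = j := by
  have e1 : ∀ x s, act f (x * p) s = cons false (act f x s) := by
    intro x s
    rw [act_mul]
    simpa using act_letter hf false (act f x s)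
  have e2 : ∀ x s, act f (x * q) s = cons true (act f x s) := by
    intro x s
    rw [act_mul]
    simpa using act_letter hf true (act f x s)
  induction t with
  | leaf => intro i j _ _ _; cases i; cases j; rfl
  | node l r ihl ihr =>
    rintro (i | i) (j | j) s s' h
    · simp only [T.tau, e1] at h
      exact congrArg Sum.inl (ihl i j s s' (cons_inj h).2)
    · simp only [T.tau, e1, e2] at h
      exact absurd (cons_inj h).1 (by decide)
    · simp only [T.tau, e1, e2] at h
      exact absurd (cons_inj h).1 (by decide)
    · simp only [T.tau, e2] at h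
      exact congrArg Sum.inr (ihr i j s s' (cons_inj h).2)

/-- in a unit of tree form with at least two leaves there is a pair of sibling words -/
theorem exists_pair (hcp : IsCP sig p q) (hf : IsHom sig p q sigC pC qC f) (t : T)
    (ht : Nontrivial t.Idx) (L : t.Idx → List Bool) (u : Vˣ)
    (hu : (u : V) = T.Phi sig t (fun i => T.W p q (L i))) :
    ∃ (i j : t.Idx) (z : List Bool), L i = z ++ [false] ∧ L j = z ++ [true] := by
  have hF : ∀ i s, act f u (act f (T.tau p q t i) s) = pre (L i) s := by
    intro i s
    rw [← act_mul, hu, T.tau_Phi hcp, act_W hf]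
  have hinj : Function.Injective (act f (u : V)) := by
    intro s s' h
    have h1 := congrArg (act f ((u⁻¹ : Vˣ) : V)) h
    rw [← act_mul, ← act_mul, Units.mul_inv, act_one, act_one] at h1
    exact h1
  have hsurj : ∀ s, ∃ s', act f (u : V) s' = s := by
    intro s
    refine ⟨act f ((u⁻¹ : Vˣ) : V) s, ?_⟩
    rw [← act_mul, Units.inv_mul, act_one]
  obtain ⟨i, hi⟩ := Finite.exists_max (fun i => (L i).length)
  have key : ∀ (z : List Bool) (b : Bool), L i = z ++ [b] → ∃ j, L j = z ++ [!b] := by
    intro z b hz
    obtain ⟨x, hx⟩ := hsurj (pre (z ++ [!b]) (fun _ => false))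
    obtain ⟨j, s, rfl⟩ := act_tau_surj hf t x
    rw [hF] at hx
    have hlen : (L j).length ≤ (z ++ [!b]).length := by
      have := hi j
      rw [hz] at this
      simpa using this
    obtain ⟨c, hc⟩ := pre_compare (L j) _ s _ hlen hx
    rcases List.eq_nil_or_concat c with rfl | ⟨c', d, rfl⟩
    · exact ⟨j, by rw [hc, List.append_nil]⟩
    · exfalso
      rw [List.concat_eq_append, ← List.append_assoc] at hc
      have hz' : z = L j ++ c' := (List.append_inj' hc rfl).1
      have e1 : act f u (act f (T.tau p q t i) (fun _ => false)) =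
          act f u (act f (T.tau p q t j) (pre (c' ++ [b]) (fun _ => false))) := by
        rw [hF, hF, hz, hz', ← pre_append, List.append_assoc]
      have e2 := act_tau_inj hf t i j _ _ (hinj e1)
      have e3 := congrArg List.length hz
      rw [hz', ← e2] at e3
      simp only [List.length_append, List.length_singleton] at e3
      omega
  rcases List.eq_nil_or_concat (L i) with h | ⟨z, b, h⟩
  · exfalso
    obtain ⟨j, hj⟩ := exists_ne i
    have hLj : L j = [] := by
      have := hi j
      rw [h] at this
      simpa using this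
    have e1 : act f u (act f (T.tau p q t i) (fun _ => false)) =
        act f u (act f (T.tau p q t j) (fun _ => false)) := by
      rw [hF, hF, h, hLj]
    exact hj (act_tau_inj hf t i j _ _ (hinj e1)).symm
  · rw [List.concat_eq_append] at h
    obtain ⟨j, hj⟩ := key z b h
    cases b with
    | false => exact ⟨i, j, z, h, hj⟩
    | true => exact ⟨j, i, z, hj, h⟩

theorem unit_leaf (hf : IsHom sig p q sigC pC qC f) (l : List Bool) (u : Vˣ)
    (hu : (u : V) = T.W p q l) : u = 1 := by
  cases l with
  | nil => exact Units.ext hu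
  | cons b l =>
    exfalso
    have h1 : act f (u : V) (act f ((u⁻¹ : Vˣ) : V) (fun _ => !b)) = (fun _ => !b) := by
      rw [← act_mul, Units.inv_mul, act_one]
    rw [hu, act_W hf] at h1
    have h2 := congrFun h1 0
    simp [pre] at h2

theorem exists_perm {α : Type*} [DecidableEq α] {a b c d : α} (h1 : a ≠ b) (h2 : c ≠ d) :
    ∃ σ : Equiv.Perm α, σ a = c ∧ σ b = d := by
  refine ⟨Equiv.swap ((Equiv.swap a c) b) d * Equiv.swap a c, ?_, ?_⟩
  · rw [Equiv.Perm.mul_apply, Equiv.swap_apply_left]
    apply Equiv.swap_apply_of_ne_of_ne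
    · intro h
      have : (Equiv.swap a c) a = (Equiv.swap a c) b := by rw [Equiv.swap_apply_left, ← h]
      exact h1 ((Equiv.swap a c).injective this)
    · exact h2
  · rw [Equiv.Perm.mul_apply, Equiv.swap_apply_left]

theorem nontrivial_idx (t : T) (ht : t ≠ T.leaf) : Nontrivial t.Idx := by
  cases t with
  | leaf => exact absurd rfl ht
  | node l r =>
    obtain ⟨i⟩ := T.nonemptyIdx l
    obtain ⟨j⟩ := T.nonemptyIdx r
    exact ⟨Sum.inl i, Sum.inr j, Sum.inl_ne_inr⟩

theorem main (hcp : IsCP sig p q) (hf : IsHom sig p q sigC pC qC f) (n : ℕ) : ∀ (t : T),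
    t.size ≤ n → ∀ (L : t.Idx → List Bool) (u : Vˣ),
      (u : V) = T.Phi sig t (fun i => T.W p q (L i)) →
      u ∈ Subgroup.closure (symmetricImages sig p q) := by
  induction n with
  | zero =>
    intro t ht
    exfalso
    have : ∀ t : T, 0 < t.size := by
      intro t
      induction t with
      | leaf => simp [T.size]
      | node l r ihl ihr => simp only [T.size]; omega
    have := this t
    omega
  | succ n ih =>
    intro t ht L u hu
    by_cases hleaf : t = T.leaf
    · subst hleaf
      rw [unit_leaf hf (L ()) u hu]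
      exact one_mem _
    · have hnt := nontrivial_idx t hleaf
      obtain ⟨i, j, z, hi, hj⟩ := exists_pair hcp hf t hnt L u hu
      obtain ⟨i0, i1, t', h01, hlt, hcar⟩ := T.caret hcp t hleaf
      have hij : i ≠ j := by
        rintro rfl
        rw [hi] at hj
        simp at hj
      obtain ⟨σ, hσ0, hσ1⟩ := exists_perm h01 hij
      obtain ⟨L', hL'⟩ := hcar (fun k => L (σ k)) z (by rw [hσ0, hi]) (by rw [hσ1, hj])
      have h1 : ((T.psiU hcp t σ * u : Vˣ) : V) = T.Phi sig t' (fun i => T.W p q (L' i)) := by
        rw [Units.val_mul, hu, ← hL']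
        exact T.psi_mul_Phi hcp t σ _
      have h2 := ih t' (by omega) L' _ h1
      have h3 : T.psiU hcp t σ ∈ Subgroup.closure (symmetricImages sig p q) :=
        Subgroup.subset_closure (psiU_mem hcp t hnt σ)
      have h4 := mul_mem (inv_mem h3) h2
      rwa [inv_mul_cancel_left] at h4

end

/-- **The answer to Q1 is positive**: the unit group of the universal CP monoid is generated by
the images of the symmetric groups. -/
theorem result :
    (∀ (V : Type) (_ : Monoid V) (sig : V → V → V) (p q : V), IsCP sig p q →
      IsUniversal.{0} sig p q → Subgroup.closure (symmetricImages sig p q) = ⊤) ∧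
    ∃ (V : Type) (_ : Monoid V) (sig : V → V → V) (p q : V), IsCP sig p q ∧
      IsUniversal.{0} sig p q := by
  refine ⟨fun V _ sig p q h hU => ?_, U, inferInstance, U.sig, U.p, U.q, U.isCP, U.isUniversal⟩
  obtain ⟨f, hf, -⟩ := hU _ _ _ _ _ isCP_C
  rw [eq_top_iff]
  intro u _
  obtain ⟨t, L, hL⟩ := T.isForm_universal h hU (u : V)
  exact main h hf t.size t le_rfl L u hL

end Pool.Agent.Results.MP_6189ff_al.UnitsGenerated
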